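import Pool.Agent.H55.FFM.TE

/-!
Module WPL: a place where a polynomial has a zero with integer coordinates.
-/

open MvPolynomial
open Pool.Agent.H12.ZD
open Pool.Agent.H18.HIT
open Pool.Agent.H55.FFM

namespace Pool.Agent.H47.FFM

/-- large primes divide values of an integer polynomial -/
theorem wpl_primes (f : Polynomial ℤ) (hf : 1 ≤ f.natDegree) (M : ℕ) :
    ∃ (p : ℕ) (t : ℤ), p.Prime ∧ M < p ∧ (p : ℤ) ∣ f.eval t := by
  obtain ⟨c, hc⟩ : ∃ c : ℤ, c = f.eval 0 := ⟨_, rfl⟩
  by_cases hc0 : c = 0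
  · obtain ⟨p, hp1, hp2⟩ := Nat.exists_infinite_primes (M + 1)
    refine ⟨p, 0, hp2, by omega, ?_⟩
    rw [← hc, hc0]
    exact dvd_zero _
  obtain ⟨P, hP⟩ : ∃ P : ℤ, P = (M.factorial : ℤ) := ⟨_, rfl⟩
  have hP0 : P ≠ 0 := by
    rw [hP]
    exact_mod_cast M.factorial_ne_zero
  have hcP : c * P ≠ 0 := mul_ne_zero hc0 hP0
  obtain ⟨F, hF⟩ : ∃ F : Polynomial ℤ, F = f.comp (Polynomial.C (c * P) * Polynomial.X) := ⟨_, rfl⟩
  have hFd : 1 ≤ F.natDegree := by
    rw [hF, Polynomial.natDegree_comp, Polynomial.natDegree_C_mul_X _ hcP, mul_one]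
    exact hf
  have hFc : ∀ a : ℤ, F - Polynomial.C a ≠ 0 := by
    intro a h
    rw [sub_eq_zero] at h
    rw [h, Polynomial.natDegree_C] at hFd
    omega
  have hG : (F - Polynomial.C c) * (F - Polynomial.C (-c)) ≠ 0 := mul_ne_zero (hFc _) (hFc _)
  obtain ⟨s, hs⟩ : ∃ s : ℤ, ((F - Polynomial.C c) * (F - Polynomial.C (-c))).eval s ≠ 0 := by
    by_contra hcon
    push Not at hcon
    exact hG (Polynomial.funext fun s => by rw [hcon s, Polynomial.eval_zero])
  rw [Polynomial.eval_mul, Polynomial.eval_sub, Polynomial.eval_sub, Polynomial.eval_C,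
    Polynomial.eval_C] at hs
  have hFs : F.eval s = f.eval (c * P * s) := by
    rw [hF, Polynomial.eval_comp, Polynomial.eval_mul, Polynomial.eval_C, Polynomial.eval_X]
  obtain ⟨g, hg⟩ : c * P * s - 0 ∣ f.eval (c * P * s) - f.eval 0 := Polynomial.sub_dvd_eval_sub _ _ _
  rw [sub_zero, ← hc] at hg
  have hval : f.eval (c * P * s) = c * (1 + P * (s * g)) := by linear_combination hg
  have hh : (1 + P * (s * g)).natAbs ≠ 1 := by
    intro h
    rcases Int.natAbs_eq_iff.1 h with h1 | h1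
    · apply hs
      rw [hFs, hval, h1]
      push_cast
      ring
    · apply hs
      rw [hFs, hval, h1]
      push_cast
      ring
  obtain ⟨q, hq, hqd⟩ := Nat.exists_prime_and_dvd hh
  have hqd' : (q : ℤ) ∣ 1 + P * (s * g) := Int.natCast_dvd.2 hqd
  refine ⟨q, c * P * s, hq, ?_, ?_⟩
  · by_contra hle
    rw [not_lt] at hle
    have h1 : (q : ℤ) ∣ P := by
      rw [hP]
      exact_mod_cast (hq.dvd_factorial).2 hle
    have h2 : (q : ℤ) ∣ 1 := by
      have h3 := dvd_sub hqd' (h1.mul_right (s * g))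
      rwa [add_sub_cancel_right] at h3
    have h3 := Int.natAbs_dvd_natAbs.2 h2
    simp only [Int.natAbs_natCast, Int.natAbs_one, Nat.dvd_one] at h3
    exact hq.one_lt.ne' h3
  · rw [hval]
    exact hqd'.mul_left c

theorem wpl_aeval (σ : Qb ≃+* Qb) (q : Polynomial ℚ) (x : Qb) :
    Polynomial.aeval (σ x) q = σ (Polynomial.aeval x q) := by
  have h := (RingHom.toRatAlgHom (σ : Qb →+* Qb))
  exact Polynomial.aeval_algHom_apply (RingHom.toRatAlgHom (σ : Qb →+* Qb)) x q

/-- conjugates of an algebraic number are integral at almost all places -/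
theorem wpl_bound (x : Qb) : ∃ M : ℕ, ∀ p : Nat.Primes, M < p → ∀ σ : Qb ≃+* Qb,
    v p (σ x) ≤ 1 := by
  classical
  have hx : IsIntegral ℚ x := (Algebra.IsAlgebraic.isAlgebraic x).isIntegral
  obtain ⟨M, hM⟩ := exists_bound_finset ((minpoly ℚ x).aroots Qb).toFinset
  refine ⟨M, fun p hp σ => hM p hp _ ?_⟩
  rw [Multiset.mem_toFinset, Polynomial.mem_aroots]
  refine ⟨minpoly.ne_zero hx, ?_⟩
  rw [wpl_aeval, minpoly.aeval, map_zero]

theorem wpl_bound_finset (A : Finset Qb) : ∃ M : ℕ, ∀ p : Nat.Primes, M < p → ∀ σ : Qb ≃+* Qb,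
    ∀ x ∈ A, v p (σ x) ≤ 1 := by
  classical
  choose M hM using wpl_bound
  exact ⟨A.sup M, fun p hp σ x hx => hM x p (lt_of_le_of_lt (Finset.le_sup hx) hp) σ⟩

theorem wpl_normal : Normal ℚ Qb := by
  rw [normal_iff]
  intro x
  exact ⟨(Algebra.IsAlgebraic.isAlgebraic x).isIntegral, IsAlgClosed.splits _⟩

/-- an algebraic number is congruent to an integer at a large place, up to conjugation -/
theorem wpl_root (α : Qb) (M : ℕ) : ∃ (p : Nat.Primes) (σ : Qb ≃+* Qb) (t : ℤ), M < p ∧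
    v p ((t : Qb) - σ α) < 1 := by
  classical
  have hα : IsIntegral ℚ α := (Algebra.IsAlgebraic.isAlgebraic α).isIntegral
  obtain ⟨μ, hμ⟩ : ∃ μ : Polynomial ℚ, μ = minpoly ℚ α := ⟨_, rfl⟩
  have hmon : μ.Monic := by
    rw [hμ]
    exact minpoly.monic hα
  obtain ⟨b, hb, hbμ⟩ := IsLocalization.integerNormalization_spec (nonZeroDivisors ℤ) μ
  obtain ⟨f, hf⟩ : ∃ f : Polynomial ℤ,
      f = IsLocalization.integerNormalization (nonZeroDivisors ℤ) μ := ⟨_, rfl⟩
  rw [← hf] at hbμ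
  have hb0 : b ≠ 0 := nonZeroDivisors.ne_zero hb
  have hbμ' : f.map (algebraMap ℤ ℚ) = Polynomial.C (b : ℚ) * μ := by
    rw [hbμ, ← Polynomial.smul_eq_C_mul]
    ext n
    simp
  have hfd : 1 ≤ f.natDegree := by
    have h1 : (f.map (algebraMap ℤ ℚ)).natDegree = f.natDegree :=
      Polynomial.natDegree_map_eq_of_injective (algebraMap ℤ ℚ).injective_int f
    rw [← h1, hbμ', Polynomial.natDegree_C_mul (by exact_mod_cast hb0), hμ]
    exact minpoly.natDegree_pos hα
  obtain ⟨q, t, hq, hMq, hqt⟩ := wpl_primes f hfd (max M b.natAbs)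
  obtain ⟨p, hp⟩ : ∃ p : Nat.Primes, (p : ℕ) = q := ⟨⟨q, hq⟩, rfl⟩
  rw [← hp] at hMq hqt
  have hMp : M < (p : ℕ) := lt_of_le_of_lt (le_max_left _ _) hMq
  have hbp : b.natAbs < (p : ℕ) := lt_of_le_of_lt (le_max_right _ _) hMq
  have hvb : v p (b : Qb) = 1 := by
    have h3 : ¬ (p : ℕ) ∣ b.natAbs := fun h =>
      absurd (Nat.le_of_dvd (Int.natAbs_pos.mpr hb0) h) (by omega)
    have h4 := v_natCast_eq p h3
    rcases Int.natAbs_eq b with h5 | h5
    · rw [h5, Int.cast_natCast]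
      exact h4
    · rw [h5, Int.cast_neg, Int.cast_natCast, v_neg]
      exact h4
  have hvf : v p ((f.eval t : ℤ) : Qb) < 1 := by
    obtain ⟨m, hm⟩ := hqt
    rw [hm, Int.cast_mul, v_mul, Int.cast_natCast]
    calc v p ((p : ℕ) : Qb) * v p (m : Qb) ≤ v p ((p : ℕ) : Qb) * 1 :=
          mul_le_mul_of_nonneg_left (v_intCast_le p m) (v_nonneg p _)
      _ < 1 := by
        rw [mul_one]
        exact v_self_lt p
  -- the factorization
  have hsplit : μ.map (algebraMap ℚ Qb) =
      (((μ.map (algebraMap ℚ Qb)).roots).map fun r => Polynomial.X - Polynomial.C r).prod := by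
    have h1 : (μ.map (algebraMap ℚ Qb)).Splits := IsAlgClosed.splits _
    have h2 := h1.eq_prod_roots
    rwa [(hmon.map (algebraMap ℚ Qb)).leadingCoeff, map_one, one_mul] at h2
  have hval : ((f.eval t : ℤ) : Qb) = (b : Qb) *
      ((μ.map (algebraMap ℚ Qb)).roots.map fun r => (t : Qb) - r).prod := by
    have h1 : (f.map (algebraMap ℤ Qb)) = Polynomial.C (b : Qb) * μ.map (algebraMap ℚ Qb) := by
      have h2 : (algebraMap ℤ Qb) = (algebraMap ℚ Qb).comp (algebraMap ℤ ℚ) :=
        RingHom.ext_int _ _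
      rw [h2, ← Polynomial.map_map, hbμ', Polynomial.map_mul, Polynomial.map_C]
      simp
    have h3 : ((f.eval t : ℤ) : Qb) = (f.map (algebraMap ℤ Qb)).eval (t : Qb) := by
      have h4 := Polynomial.eval_map_apply (algebraMap ℤ Qb) (p := f) t
      simpa using h4.symm
    rw [h3, h1, Polynomial.eval_mul, Polynomial.eval_C]
    congr 1
    conv_lhs => rw [hsplit]
    rw [Polynomial.eval_multiset_prod, Multiset.map_map]
    congr 1
    refine Multiset.map_congr rfl fun r _ => ?_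
    simp
  rw [hval, v_mul, hvb, one_mul] at hvf
  have hex : ∃ r ∈ (μ.map (algebraMap ℚ Qb)).roots, v p ((t : Qb) - r) < 1 := by
    by_contra hcon
    push Not at hcon
    have h1 : ∀ s : Multiset Qb, (∀ r ∈ s, 1 ≤ v p ((t : Qb) - r)) →
        1 ≤ v p ((s.map fun r => (t : Qb) - r).prod) := by
      intro s
      induction s using Multiset.induction_on with
      | empty =>
        intro _
        simp
      | cons a s ih =>
        intro h
        rw [Multiset.map_cons, Multiset.prod_cons, v_mul]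
        exact one_le_mul_of_one_le_of_one_le (h a (Multiset.mem_cons_self a s))
          (ih fun r hr => h r (Multiset.mem_cons_of_mem hr))
    exact absurd hvf (not_lt.2 (h1 _ hcon))
  obtain ⟨r, hr, hvr⟩ := hex
  have hr' : Polynomial.aeval r (minpoly ℚ α) = 0 := by
    have h1 := Polynomial.isRoot_of_mem_roots hr
    rw [Polynomial.IsRoot, Polynomial.eval_map_algebraMap, hμ] at h1
    exact h1
  have := wpl_normal
  obtain ⟨σ, hσ⟩ := minpoly.exists_algEquiv_of_root' (Algebra.IsAlgebraic.isAlgebraic α) hr'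
  refine ⟨p, σ.toRingEquiv, t, hMp, ?_⟩
  have h2 : σ.toRingEquiv α = r := hσ
  rw [h2]
  exact hvr

theorem wpl_lin_eval {N : ℕ} (y b : Fin N → ℤ) (J : Po N Qb) (t : ℤ) :
    (lin y b J).eval (t : Qb) = eval (cZ (fun i => y i + t * b i)) J := by
  induction J using MvPolynomial.induction_on with
  | C a => simp [lin]
  | add f g hf hg => rw [map_add, Polynomial.eval_add, hf, hg, map_add]
  | mul_X f i hf =>
    rw [map_mul, Polynomial.eval_mul, hf, map_mul, eval_X]
    congr 1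
    simp [lin, cZ]
    ring

/-- a nonconstant polynomial is nonconstant on an integral line -/
theorem wpl_line {N : ℕ} (J : Po N Qb) (hJ : ∀ c : Qb, J ≠ C c) :
    ∃ y b : Fin N → ℤ, 1 ≤ (lin y b J).natDegree := by
  by_contra hcon
  push Not at hcon
  apply hJ (eval (cZ (fun _ => 0)) J)
  refine funext_set (fun _ => Set.range fun n : ℤ => (n : Qb)) (fun _ => ?_) fun x hx => ?_
  · exact Set.infinite_range_of_injective Int.cast_injective
  · have h1 : ∀ i, ∃ n : ℤ, (n : Qb) = x i := fun i => hx i (Set.mem_univ i)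
    choose n hn using h1
    have h2 : x = cZ (fun i => 0 + (1 : ℤ) * n i) := by
      funext i
      simp [cZ, hn i]
    have h3 : (lin (fun _ => 0) n J).natDegree = 0 := by
      have := hcon (fun _ => 0) n
      omega
    have h4 := Polynomial.eq_C_of_natDegree_eq_zero h3
    have h5 := wpl_lin_eval (fun _ => 0) n J 1
    have h6 := wpl_lin_eval (fun _ => 0) n J 0
    rw [h4, Polynomial.eval_C] at h5 h6
    rw [eval_C, h2, ← h5, h6]
    congr 2
    simp

theorem pf_WPL : T_WPL := by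
  classical
  intro N J A hJ
  obtain ⟨y, b, hyb⟩ := wpl_line J hJ
  obtain ⟨j, hj⟩ : ∃ j : Polynomial Qb, j = lin y b J := ⟨_, rfl⟩
  rw [← hj] at hyb
  have hdeg : j.degree ≠ 0 := by
    intro h
    have h2 : j.natDegree = 0 := Polynomial.natDegree_eq_zero_iff_degree_le_zero.2 h.le
    omega
  obtain ⟨α, hα⟩ := IsAlgClosed.exists_root j hdeg
  obtain ⟨j₁, hj₁⟩ := Polynomial.dvd_iff_isRoot.2 hα
  obtain ⟨M₁, hM₁⟩ := wpl_bound_finset A
  obtain ⟨M₂, hM₂⟩ := wpl_bound_finset (j₁.support.image j₁.coeff)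
  obtain ⟨p, σ, t, hp, hv⟩ := wpl_root α (max M₁ M₂)
  refine ⟨p, σ, fun i => y i + t * b i, ?_, ?_⟩
  · exact fun a ha => hM₁ p (lt_of_le_of_lt (le_max_left _ _) hp) σ a ha
  · rw [← wpl_lin_eval, ← hj, hj₁, Polynomial.eval_mul, Polynomial.eval_sub, Polynomial.eval_X,
      Polynomial.eval_C, map_mul, map_sub, map_intCast, v_mul]
    have h1 : v p (σ (j₁.eval (t : Qb))) ≤ 1 := by
      rw [Polynomial.eval_eq_sum, Polynomial.sum, map_sum]
      refine v_sum_le p _ _ zero_le_one fun i hi => ?_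
      rw [map_mul, map_pow, map_intCast, v_mul, v_pow]
      have h2 := hM₂ p (lt_of_le_of_lt (le_max_right _ _) hp) σ (j₁.coeff i)
        (Finset.mem_image_of_mem _ hi)
      exact mul_le_one₀ h2 (pow_nonneg (v_nonneg p _) _)
        (pow_le_one₀ (v_nonneg p _) (v_intCast_le p t))
    calc v p ((t : Qb) - σ α) * v p (σ (j₁.eval (t : Qb))) ≤ v p ((t : Qb) - σ α) * 1 :=
          mul_le_mul_of_nonneg_left h1 (v_nonneg p _)
      _ < 1 := by
        rw [mul_one]
        exact hv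

end Pool.Agent.H47.FFM
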